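import Pool.Agent.Lib.MP_de5887_an.Low.Sys

set_option autoImplicit false

open Finset Pool.Agent.Lib.MP_de5887_an.Low

namespace Pool.Agent.Lib.MP_de5887_an.Old.AboveAddress

/-- For every `d ≥ 2` the homogeneous Boolean Bohnenblust-Hille constant exceeds the value
`2 ^ ((d - 1) / d)` of the address function, by a factor `1 + 1 / (320 d ^ (log₃ 4))`. -/
theorem result (d : ℕ) (hd : 2 ≤ d) :
    ∃ (n : ℕ) (a : Finset (Fin n) → ℝ),
      (∀ x : Fin n → ℝ, (∀ i, x i = 1 ∨ x i = -1) →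
        |∑ S ∈ (Finset.univ : Finset (Fin n)).powersetCard d, a S * ∏ i ∈ S, x i| ≤ 1) ∧
      (2 : ℝ) ^ (((d : ℝ) - 1) / d) * (1 + 1 / (320 * (d : ℝ) ^ Real.logb 3 4)) ≤
        (∑ S ∈ (Finset.univ : Finset (Fin n)).powersetCard d,
          |a S| ^ ((2 * (d : ℝ)) / ((d : ℝ) + 1))) ^ (((d : ℝ) + 1) / (2 * (d : ℝ))) := by
  obtain ⟨i, h1, h2⟩ : ∃ i : ℕ, 3 ^ i < d ∧ d ≤ 3 ^ (i + 1) := ⟨Nat.log 3 (d - 1), by
    have := Nat.pow_log_le_self 3 (show d - 1 ≠ 0 by omega)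
    omega, by
    have := Nat.lt_pow_succ_log_self (show 1 < 3 by norm_num) (d - 1)
    rw [Nat.succ_eq_add_one] at this
    omega⟩
  have h3 : ∀ j : ℕ, 2 * j + 1 ≤ 3 ^ j := fun j => by
    induction j with
    | zero => simp
    | succ j ih =>
      rw [pow_succ]
      omega
  obtain ⟨k, hk⟩ : ∃ k, d = 2 * i + 2 + k := ⟨d - (2 * i + 2), by have := h3 i; omega⟩
  have hd0 : (2 : ℝ) ≤ d := by exact_mod_cast hd
  have hq : 0 < 2 * (d : ℝ) / (d + 1) := by positivity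
  obtain ⟨n, a, ha, hs⟩ := (one_all hq rfl i k).out hq
  rw [← hk] at ha hs
  refine ⟨n, a, ha, ?_⟩
  set L : ℝ := 2 ^ (2 / ((d : ℝ) + 1)) with hL
  have hL0 : 0 < L := by positivity
  have e1 : 2 * (1 / 2 : ℝ) ^ (2 * (d : ℝ) / (d + 1)) = L / 2 := by
    rw [hL, show 2 / ((d : ℝ) + 1) = 2 - 2 * d / (d + 1) by field_simp; ring,
      Real.rpow_sub two_pos, one_div, Real.inv_rpow zero_le_two]
    norm_num
    ring
  set y : ℝ := 1 / (320 * (d : ℝ) ^ Real.logb 3 4) with hy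
  have hθ : (4 : ℝ) ^ i ≤ (d : ℝ) ^ Real.logb 3 4 := by
    have e : (4 : ℝ) ^ i = ((3 : ℝ) ^ i) ^ Real.logb 3 4 := by
      rw [← Real.rpow_natCast 3, ← Real.rpow_mul (by norm_num), mul_comm,
        Real.rpow_mul (by norm_num), Real.rpow_logb (by norm_num) (by norm_num) (by norm_num),
        Real.rpow_natCast]
    rw [e]
    exact Real.rpow_le_rpow (by positivity) (by exact_mod_cast h1.le)
      (Real.logb_nonneg (by norm_num) (by norm_num))
  have h4 : (1 : ℝ) ≤ 4 ^ i := one_le_pow₀ (by norm_num)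
  have hy0 : 0 ≤ y := by positivity
  have hy1 : y * 4 ^ i ≤ 1 / 320 := by
    rw [hy, div_mul_eq_mul_div, div_le_div_iff₀ (by positivity) (by norm_num)]
    linarith
  have hL1 : 2 / ((d : ℝ) + 1) * (693 / 1000) ≤ L - 1 := by
    have h5 := Real.add_one_le_exp (Real.log 2 * (2 / ((d : ℝ) + 1)))
    rw [← Real.rpow_def_of_pos two_pos, ← hL] at h5
    have h6 : 0 ≤ 2 / ((d : ℝ) + 1) := by positivity
    nlinarith [Real.log_two_gt_d9]
  have h7 : (3 : ℝ) / 2 ≤ 3 ^ (i + 1) * (2 / ((d : ℝ) + 1)) := by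
    have h8 : (d : ℝ) ≤ 3 ^ (i + 1) := by exact_mod_cast h2
    have h9 : (3 : ℝ) ≤ 3 ^ (i + 1) := le_self_pow₀ (by norm_num) (by omega)
    rw [← mul_div_assoc, le_div_iff₀ (by positivity)]
    linarith
  have hG : (1 + y) ^ 2 ≤ 1 + (3 ^ (i + 1) * (L - 1) - 1) / 4 ^ (i + 1) := by
    have h8 := mul_le_mul_of_nonneg_left hL1 (show (0 : ℝ) ≤ 3 ^ (i + 1) by positivity)
    have h9 : 3 * y ≤ (3 ^ (i + 1) * (L - 1) - 1) / 4 ^ (i + 1) := by
      rw [le_div_iff₀ (by positivity), pow_succ 4]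
      nlinarith
    nlinarith
  have e2 : (2 * (L / 2)) ^ k * ((L / 2) ^ (2 * i + 1) *
      (3 ^ (i + 1) * (L / 2) + (4 ^ (i + 1) - 3 ^ (i + 1) - 1) / 2)) =
      L ^ (2 * i + 1 + k) * (1 + (3 ^ (i + 1) * (L - 1) - 1) / 4 ^ (i + 1)) := by
    have e : (4 : ℝ) ^ (i + 1) = 2 ^ (2 * i + 1) * 2 := by
      rw [← pow_succ, show 2 * i + 1 + 1 = 2 * (i + 1) by ring, pow_mul]
      norm_num
    rw [e, div_pow]
    field_simp
    ring
  have e3 : (L ^ (2 * i + 1 + k)) ^ (((d : ℝ) + 1) / (2 * d)) = 2 ^ (((d : ℝ) - 1) / d) := by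
    have e : ((2 * i + 1 + k : ℕ) : ℝ) = d - 1 := by
      rw [hk]
      push_cast
      ring
    rw [← Real.rpow_natCast, e, hL, ← Real.rpow_mul zero_le_two, ← Real.rpow_mul zero_le_two]
    congr 1
    field_simp
  have h10 : (1 : ℝ) ≤ (1 + y) ^ 2 := by nlinarith
  rw [hs, e1, e2, Real.mul_rpow (by positivity) (by linarith), e3]
  refine mul_le_mul_of_nonneg_left ?_ (by positivity)
  calc 1 + y = ((1 + y) ^ 2) ^ (1 / 2 : ℝ) := by
        rw [← Real.rpow_natCast, ← Real.rpow_mul (by linarith)]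
        norm_num
    _ ≤ ((1 + y) ^ 2) ^ (((d : ℝ) + 1) / (2 * d)) := Real.rpow_le_rpow_of_exponent_le h10 (by
        rw [div_le_div_iff₀ (by norm_num) (by positivity)]
        linarith)
    _ ≤ _ := Real.rpow_le_rpow (by positivity) hG (by positivity)

end Pool.Agent.Lib.MP_de5887_an.Old.AboveAddress
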