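import Pool.Agent.Lib.MP_de5887_an.Tile.Fin

set_option autoImplicit false

open Finset

namespace Pool.Agent.Lib.MP_de5887_an.Old.NearTwo

/-- For every `d ≥ 2` the homogeneous Boolean Bohnenblust-Hille constant is at least
`2 - (2 - 2 ^ ((d - 1) / d)) * exp (-(sqrt d) / 400)`. -/
theorem result (d : ℕ) (hd : 2 ≤ d) :
    ∃ (n : ℕ) (a : Finset (Fin n) → ℝ),
      (∀ x : Fin n → ℝ, (∀ i, x i = 1 ∨ x i = -1) →
        |∑ S ∈ (Finset.univ : Finset (Fin n)).powersetCard d, a S * ∏ i ∈ S, x i| ≤ 1) ∧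
      2 - (2 - (2 : ℝ) ^ (((d : ℝ) - 1) / d)) * Real.exp (-√(d : ℝ) / 400) ≤
        (∑ S ∈ (Finset.univ : Finset (Fin n)).powersetCard d,
          |a S| ^ ((2 * (d : ℝ)) / ((d : ℝ) + 1))) ^ (((d : ℝ) + 1) / (2 * (d : ℝ))) := by
  rw [show -√(d : ℝ) / 400 = -(1 / 400) * √(d : ℝ) by ring]
  exact Pool.Agent.Lib.MP_de5887_an.Tile.near_two d hd

end Pool.Agent.Lib.MP_de5887_an.Old.NearTwo
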