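import Pool.Agent.Lib.MP_de5887_an.Final

set_option autoImplicit false

open Finset Pool.Agent.Lib.MP_de5887_an
open scoped BigOperators

namespace Pool.Agent.Lib.MP_de5887_an.Old.PolyBH

/-- Polynomial growth of the Bohnenblust-Hille constants for all real polynomials of degree at
most `d` on the Boolean cube. -/
theorem result :
    ∃ C : ℝ, 0 < C ∧ ∀ d : ℕ, 2 ≤ d → ∀ (n : ℕ) (a : Finset (Fin n) → ℝ) (M : ℝ),
      (∀ x : Fin n → ℝ, (∀ i, x i = 1 ∨ x i = -1) →
        |∑ S ∈ (Finset.univ : Finset (Finset (Fin n))).filter (fun S => S.card ≤ d),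
          a S * ∏ i ∈ S, x i| ≤ M) →
      (∑ S ∈ (Finset.univ : Finset (Finset (Fin n))).filter (fun S => S.card ≤ d),
          |a S| ^ ((2 * (d : ℝ)) / ((d : ℝ) + 1))) ^ (((d : ℝ) + 1) / (2 * (d : ℝ)))
        ≤ (d : ℝ) ^ C * M := by
  refine ⟨CC + 1, by linarith [CC_pos], fun d hd2 n a M hM => ?_⟩
  have hd' : (2 : ℝ) ≤ d := by exact_mod_cast hd2
  have hq : (2 * (d : ℝ)) / ((d : ℝ) + 1) = qq d := rfl
  have hqpos : 0 < qq d := qq_pos (by omega)
  rw [hq]
  set a' : Finset (Fin n) → ℝ := fun T => if T.card ≤ d then a T else 0 with ha'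
  have hev : ∀ x, |ev univ a' x| ≤ M := by
    intro x
    have h := hM (fun i => sg (x i)) fun i => sg_cases (x i)
    have e : ev univ a' x = ∑ S ∈ (Finset.univ : Finset (Finset (Fin n))).filter
        (fun S => S.card ≤ d), a S * ∏ i ∈ S, sg (x i) := by
      unfold ev mev
      rw [sum_filter, powerset_univ]
      refine sum_congr rfl fun T _ => ?_
      by_cases h : T.card ≤ d <;> simp [ha', h]
    rw [e]; exact h
  have hM0 : 0 ≤ M := (abs_nonneg _).trans (hev fun _ => true)
  have hco : ∀ T, |a' T| ≤ M := by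
    intro T
    have hp := expect_ev_sq univ a'
    have h1 : a' T ^ 2 ≤ ∑ T ∈ (univ : Finset (Fin n)).powerset, a' T ^ 2 :=
      single_le_sum (f := fun T => a' T ^ 2) (fun T _ => sq_nonneg _)
        (mem_powerset.2 (subset_univ T))
    have h2 : 𝔼 x, ev univ a' x ^ 2 ≤ M ^ 2 :=
      expect_le univ_nonempty fun x _ => by
        rw [← sq_abs]; exact pow_le_pow_left₀ (abs_nonneg _) (hev x) 2
    exact abs_le_of_sq_le_sq (by linarith) hM0
  rcases hM0.eq_or_lt with h0 | hMpos
  · have h3 : ∑ S ∈ (Finset.univ : Finset (Finset (Fin n))).filter (fun S => S.card ≤ d),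
        |a S| ^ qq d = 0 := by
      refine sum_eq_zero fun S hS => ?_
      have h4 := hco S
      simp only [ha', if_pos (mem_filter.1 hS).2] at h4
      rw [le_antisymm (h4.trans h0.symm.le) (abs_nonneg _), Real.zero_rpow hqpos.ne']
    rw [h3, Real.zero_rpow (by positivity)]
    positivity
  · set c : Finset (Fin n) → ℝ := fun T => M⁻¹ * a' T with hc
    have hcl : Cls d univ c := by
      refine ⟨fun T _ hT => ?_, fun x => ?_⟩
      · simp only [hc, ha']; rw [if_neg (by omega), mul_zero]
      · have h2 : ev univ c x = M⁻¹ * ev univ a' x := by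
          unfold ev mev
          rw [mul_sum]
          exact sum_congr rfl fun T _ => by simp only [hc]; ring
        rw [h2, abs_mul, abs_of_pos (inv_pos.2 hMpos), inv_mul_le_iff₀ hMpos, mul_one]
        exact hev x
    have hc1 : ∀ T, |c T| ≤ 1 := fun T => by
      simp only [hc]
      rw [abs_mul, abs_of_pos (inv_pos.2 hMpos), inv_mul_le_iff₀ hMpos, mul_one]
      exact hco T
    have h3 := Qs_le hd2 univ c hcl
    have h4 : ∑ S ∈ (Finset.univ : Finset (Finset (Fin n))).filter (fun S => S.card ≤ d),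
        |a S| ^ qq d ≤ M ^ qq d * (Qs univ c d + 1) := by
      have e1 : Qs univ c d + 1 = Qs univ c d +
          ∑ T ∈ (univ : Finset (Fin n)).powerset, if T = ∅ then (1 : ℝ) else 0 := by
        simp
      rw [sum_filter, e1]
      unfold Qs
      rw [← sum_add_distrib, mul_sum, powerset_univ]
      refine sum_le_sum fun T _ => ?_
      by_cases h1 : T.card ≤ d
      · rw [if_pos h1]
        have e : |a T| = M * |c T| := by
          simp only [hc, ha', if_pos h1, abs_mul, abs_of_pos (inv_pos.2 hMpos)]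
          field_simp
        rw [e, Real.mul_rpow hMpos.le (abs_nonneg _)]
        refine mul_le_mul_of_nonneg_left ?_ (by positivity)
        by_cases h2 : T = ∅
        · rw [if_neg (by simp [h2]), if_pos h2, zero_add]
          exact Real.rpow_le_one (abs_nonneg _) (hc1 T) hqpos.le
        · have h5 : 1 ≤ T.card := card_pos.2 (nonempty_iff_ne_empty.2 h2)
          rw [if_pos ⟨h5, h1⟩, if_neg h2, add_zero]
          refine Real.rpow_le_rpow_of_exponent_ge' (abs_nonneg _) (hc1 T) (qq_pos h5).le ?_
          unfold qq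
          have : (T.card : ℝ) ≤ d := by exact_mod_cast h1
          have p1 : (0 : ℝ) < (T.card : ℝ) + 1 := Nat.cast_add_one_pos _
          have p2 : (0 : ℝ) < (d : ℝ) + 1 := Nat.cast_add_one_pos _
          rw [div_le_div_iff₀ p1 p2]
          nlinarith
      · rw [if_neg h1]
        refine mul_nonneg (by positivity) (add_nonneg ?_ ?_)
        · split_ifs
          · positivity
          · exact le_rfl
        · split_ifs
          · exact zero_le_one
          · exact le_rfl
    have h7 : 1 ≤ (d : ℝ) ^ CC := Real.one_le_rpow (by linarith) CC_pos.le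
    have h8 : Qs univ c d + 1 ≤ (d : ℝ) ^ (CC + 1) := by
      rw [Real.rpow_add (by linarith), Real.rpow_one]
      nlinarith
    have h5 := h4.trans (mul_le_mul_of_nonneg_left h8 (by positivity))
    have h6 := Real.rpow_le_rpow (sum_nonneg fun S _ => by positivity) h5
      (show 0 ≤ ((d : ℝ) + 1) / (2 * (d : ℝ)) by positivity)
    refine h6.trans ?_
    rw [Real.mul_rpow (by positivity) (by positivity), ← Real.rpow_mul hMpos.le]
    have e : qq d * (((d : ℝ) + 1) / (2 * (d : ℝ))) = 1 := by unfold qq; field_simp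
    rw [e, Real.rpow_one, mul_comm]
    refine mul_le_mul_of_nonneg_right ?_ hMpos.le
    have h9 : 1 ≤ (d : ℝ) ^ (CC + 1) := Real.one_le_rpow (by linarith) (by linarith [CC_pos])
    calc ((d : ℝ) ^ (CC + 1)) ^ (((d : ℝ) + 1) / (2 * (d : ℝ))) ≤ ((d : ℝ) ^ (CC + 1)) ^ (1 : ℝ) := by
          refine Real.rpow_le_rpow_of_exponent_le h9 ?_
          rw [div_le_one (by positivity)]; linarith
      _ = _ := Real.rpow_one _

end Pool.Agent.Lib.MP_de5887_an.Old.PolyBH
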